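import Pool.Agent.Helper34.Kak.C7b

/-! Module C7c: separation of names, induction over the levels (problem MP_013a6c_an). -/

namespace KakC

theorem LB_zero (t : ℕ → ℕ) : LB t 0 0 0 := by
  intro i i' _ _ hne u v x hu hv hxu hxv
  have h1 : x.Sublist [i] := hxu.trans hu.sublist
  have h2 : x.Sublist [i'] := hxv.trans hv.sublist
  have h3 : x = [] := by
    cases x with
    | nil => rfl
    | cons b l =>
      exfalso
      have hb1 : b ∈ [i] := h1.subset (List.mem_cons_self)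
      have hb2 : b ∈ [i'] := h2.subset (List.mem_cons_self)
      simp only [List.mem_singleton] at hb1 hb2
      exact hne (hb1.symm.trans hb2)
  rw [h3]
  simp

/-- monotonicity in the constants -/
private theorem C7c_mono {t : ℕ → ℕ} {k : ℕ} {c ε c' ε' : ℝ} (hLB : LB t k c ε) (hc : c ≤ c')
    (hε : ε ≤ ε') : LB t k c' ε' := by
  intro i i' hi hi' hne u v x hu hv hxu hxv
  have h1 := hLB i i' hi hi' hne u v x hu hv hxu hxv
  have h2 : c * ((u.length : ℝ) + v.length) ≤ c' * (u.length + v.length) :=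
    mul_le_mul_of_nonneg_right hc (by positivity)
  have h3 : ε * (h k : ℝ) ≤ ε' * h k := mul_le_mul_of_nonneg_right hε (by positivity)
  linarith

/-- a factor of `P ++ R` is the concatenation of a factor of `P` and a factor of `R` -/
private theorem C7c_infix {u P R : List ℕ} (hu : u <:+: P ++ R) :
    ∃ u1 u2, u = u1 ++ u2 ∧ u1 <:+: P ∧ u2 <:+: R := by
  obtain ⟨s, r, hsr⟩ := hu
  rw [List.append_assoc] at hsr
  -- s ++ (u ++ r) = P ++ R
  rcases List.append_eq_append_iff.1 hsr with ⟨m, hm1, hm2⟩ | ⟨m, hm1, hm2⟩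
  · -- P = s ++ m, u ++ r = m ++ R
    rcases List.append_eq_append_iff.1 hm2 with ⟨m', hm3, hm4⟩ | ⟨m', hm3, hm4⟩
    · -- m = u ++ m'
      refine ⟨u, [], by simp, ?_, List.nil_infix⟩
      rw [hm1, hm3]
      exact ⟨s, m', by simp⟩
    · -- u = m ++ m', R = m' ++ r
      refine ⟨m, m', hm3, ?_, ?_⟩
      · rw [hm1]; exact ⟨s, [], by simp⟩
      · rw [hm4]; exact ⟨[], r, by simp⟩
  · -- s = P ++ m, R = m ++ (u ++ r)
    refine ⟨[], u, by simp, List.nil_infix, ?_⟩
    rw [hm2]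
    exact ⟨m, r, by simp⟩

/-- the two parts of a word -/
private theorem C7c_parts (t : ℕ → ℕ) (k j : ℕ) :
    ∃ T, T ≤ L k ∧ Wd t (k + 1) j =
      cat t k (fun q => (q / a k ^ j) % N k) 0 T ++
      cat t k (fun q => (q / a k ^ (j + N (k + 1) + 2)) % N k) T (L k - T) := by
  refine ⟨min (t k * (N k * Q k)) (L k), min_le_right _ _, ?_⟩
  set T := min (t k * (N k * Q k)) (L k) with hT
  have hTL : T ≤ L k := min_le_right _ _
  have h1 : List.range (L k) = List.range' 0 T ++ List.range' T (L k - T) := by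
    have h2 := List.range'_append_1 (s := 0) (m := T) (n := L k - T)
    rw [Nat.zero_add, Nat.add_sub_cancel' hTL] at h2
    rw [List.range_eq_range', h2]
  have hc1 : (List.range' 0 T).flatMap (fun q => Wd t k (pat k (t k) j q)) =
      cat t k (fun q => (q / a k ^ j) % N k) 0 T := by
    unfold cat
    refine List.flatMap_congr ?_
    intro q hq
    rw [List.mem_range'_1] at hq
    have hlt : q < t k * (N k * Q k) := by
      have := hq.2
      omega
    rw [pat, ex, if_pos hlt]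
  have hc2 : (List.range' T (L k - T)).flatMap (fun q => Wd t k (pat k (t k) j q)) =
      cat t k (fun q => (q / a k ^ (j + N (k + 1) + 2)) % N k) T (L k - T) := by
    unfold cat
    refine List.flatMap_congr ?_
    intro q hq
    rw [List.mem_range'_1] at hq
    have hlt : ¬ q < t k * (N k * Q k) := by
      have := hq.1
      have := hq.2
      omega
    rw [pat, ex, if_neg hlt]
  rw [Wd, h1, List.flatMap_append, hc1, hc2]

/-- one pair of parts, exponents different -/
private theorem C7c_pair {t : ℕ → ℕ} {k : ℕ} {c ε : ℝ} (hc : 0 ≤ c) (hε : 0 ≤ ε)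
    (hε1 : ε ≤ 1 / 8) (hLB : LB t k c ε) {e e' E : ℕ} (he : e ≠ e') (heE : e ≤ E) (heE' : e' ≤ E)
    {p s p' s' : ℕ} {u v x : List ℕ}
    (hu : u <:+: cat t k (fun q => (q / a k ^ e) % N k) p s)
    (hv : v <:+: cat t k (fun q => (q / a k ^ e') % N k) p' s')
    (hxu : x.Sublist u) (hxv : x.Sublist v) :
    (x.length : ℝ) ≤ (c + 2 * ε + 1 / N k + 3 / a k) * (u.length + v.length) +
      (2 * a k ^ E + 3) * h k := by
  have ha1 : (1 : ℝ) ≤ a k := by exact_mod_cast a_pos k
  have hh : (0 : ℝ) ≤ h k := by positivity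
  rcases Nat.lt_or_gt_of_ne he with hlt | hlt
  · have h1 := lcs_runs hc hε hε1 hLB hlt hu hv hxu hxv
    have h2 : (a k : ℝ) ^ e ≤ a k ^ E := pow_le_pow_right₀ ha1 heE
    have h3 : (2 * (a k : ℝ) ^ e + 3) * h k ≤ (2 * a k ^ E + 3) * h k :=
      mul_le_mul_of_nonneg_right (by linarith) hh
    linarith
  · have h1 := lcs_runs hc hε hε1 hLB hlt hv hu hxv hxu
    have h2 : (a k : ℝ) ^ e' ≤ a k ^ E := pow_le_pow_right₀ ha1 heE'
    have h3 : (2 * (a k : ℝ) ^ e' + 3) * h k ≤ (2 * a k ^ E + 3) * h k :=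
      mul_le_mul_of_nonneg_right (by linarith) hh
    have h4 : (v.length : ℝ) + u.length = u.length + v.length := add_comm _ _
    rw [h4] at h1
    linarith

/-- (S4) -/
theorem LB_succ {t : ℕ → ℕ} {k : ℕ} {c ε : ℝ} (hc : 0 ≤ c) (hε : 0 ≤ ε) (hε1 : ε ≤ 1 / 8)
    (hLB : LB t k c ε) :
    LB t (k + 1) (c + 2 * ε + 1 / N k + 3 / a k) (20 / (M k * N k * a k)) := by
  intro j j' hj hj' hne u v x hu hv hxu hxv
  obtain ⟨T, hT, hW⟩ := C7c_parts t k j
  obtain ⟨T', hT', hW'⟩ := C7c_parts t k j'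
  rw [hW] at hu
  rw [hW'] at hv
  -- v splits in two, x splits accordingly
  obtain ⟨v1, v2, rfl, hv1, hv2⟩ := C7c_infix hv
  obtain ⟨x1, x2, rfl, hx1, hx2⟩ := List.sublist_append_iff.1 hxv
  obtain ⟨u1, u2, rfl, hxu1, hxu2⟩ := List.append_sublist_iff.1 hxu
  have hu1 : u1 <:+: cat t k (fun q => (q / a k ^ j) % N k) 0 T ++
      cat t k (fun q => (q / a k ^ (j + N (k + 1) + 2)) % N k) T (L k - T) :=
    (List.prefix_append u1 u2).isInfix.trans hu
  have hu2 : u2 <:+: cat t k (fun q => (q / a k ^ j) % N k) 0 T ++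
      cat t k (fun q => (q / a k ^ (j + N (k + 1) + 2)) % N k) T (L k - T) :=
    (List.suffix_append u1 u2).isInfix.trans hu
  obtain ⟨u11, u12, rfl, hu11, hu12⟩ := C7c_infix hu1
  obtain ⟨u21, u22, rfl, hu21, hu22⟩ := C7c_infix hu2
  obtain ⟨x11, x12, rfl, hx11, hx12⟩ := List.sublist_append_iff.1 hxu1
  obtain ⟨x21, x22, rfl, hx21, hx22⟩ := List.sublist_append_iff.1 hxu2
  obtain ⟨v11, v12, rfl, hy11, hy12⟩ := List.append_sublist_iff.1 hx1
  obtain ⟨v21, v22, rfl, hy21, hy22⟩ := List.append_sublist_iff.1 hx2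
  have hv11 := (List.prefix_append v11 v12).isInfix.trans hv1
  have hv12 := (List.suffix_append v11 v12).isInfix.trans hv1
  have hv21 := (List.prefix_append v21 v22).isInfix.trans hv2
  have hv22 := (List.suffix_append v21 v22).isInfix.trans hv2
  have b11 := C7c_pair (E := 2 * N (k + 1) + 1) hc hε hε1 hLB (by omega) (by omega) (by omega)
    hu11 hv11 hx11 hy11
  have b12 := C7c_pair (E := 2 * N (k + 1) + 1) hc hε hε1 hLB (by omega) (by omega) (by omega)
    hu12 hv12 hx12 hy12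
  have b21 := C7c_pair (E := 2 * N (k + 1) + 1) hc hε hε1 hLB (by omega) (by omega) (by omega)
    hu21 hv21 hx21 hy21
  have b22 := C7c_pair (E := 2 * N (k + 1) + 1) hc hε hε1 hLB (by omega) (by omega) (by omega)
    hu22 hv22 hx22 hy22
  have hN : (0 : ℝ) < N k := by exact_mod_cast N_pos k
  have hM : (0 : ℝ) < M k := by exact_mod_cast M_pos k
  have ha : (0 : ℝ) < a k := by exact_mod_cast a_pos k
  have ha1 : (1 : ℝ) ≤ a k := by exact_mod_cast a_pos k
  have hh : (0 : ℝ) ≤ h k := by positivity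
  have hhk : (20 / ((M k : ℝ) * N k * a k)) * h (k + 1) =
      20 * (a k : ℝ) ^ (2 * N (k + 1) + 1) * h k := by
    have h1 : (h (k + 1) : ℝ) = N k * (M k * (a k : ℝ) ^ (2 * N (k + 1) + 2)) * h k := by
      rw [h, L, A, Q]
      push_cast
      ring
    rw [h1, pow_succ' (a k : ℝ) (2 * N (k + 1) + 1)]
    field_simp
  have hpow : (1 : ℝ) ≤ (a k : ℝ) ^ (2 * N (k + 1) + 1) := one_le_pow₀ ha1
  have hfin : 4 * ((2 * (a k : ℝ) ^ (2 * N (k + 1) + 1) + 3) * h k) ≤
      20 * (a k : ℝ) ^ (2 * N (k + 1) + 1) * h k := by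
    have : (4 * (2 * (a k : ℝ) ^ (2 * N (k + 1) + 1) + 3)) * h k ≤
      (20 * (a k : ℝ) ^ (2 * N (k + 1) + 1)) * h k :=
        mul_le_mul_of_nonneg_right (by linarith) hh
    linarith
  rw [hhk]
  simp only [List.length_append, Nat.cast_add]
  linarith

private theorem C7c_N (k : ℕ) : (1 : ℝ) / N k ≤ (1 / 512) * (1 / 2) ^ k := by
  have h1 : (2 : ℕ) ^ (k + 9) ≤ N k := by
    unfold N
    exact Nat.pow_le_pow_right (by norm_num) (by nlinarith)
  have h2 : ((2 : ℝ)) ^ (k + 9) ≤ N k := by exact_mod_cast h1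
  have h3 : (1 : ℝ) / N k ≤ 1 / 2 ^ (k + 9) := one_div_le_one_div_of_le (by positivity) h2
  have h4 : (1 : ℝ) / 2 ^ (k + 9) = (1 / 512) * (1 / 2) ^ k := by
    rw [pow_add, one_div_pow]
    field_simp
    norm_num
  linarith

private theorem C7c_a (k : ℕ) : (3 : ℝ) / a k = (3 / 512) * (1 / 2) ^ k := by
  have h1 : (a k : ℝ) = 2 ^ (k + 9) := by unfold a; push_cast; rfl
  rw [h1, pow_add, one_div_pow]
  field_simp
  norm_num

private theorem C7c_MNa (k : ℕ) : (20 : ℝ) / (M k * N k * a k) ≤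
    (1 / 256) * (1 / 2) ^ (k + 1) := by
  have hM : (1 : ℝ) ≤ M k := by exact_mod_cast M_pos k
  have hN : (0 : ℝ) < N k := by exact_mod_cast N_pos k
  have ha : (0 : ℝ) < a k := by exact_mod_cast a_pos k
  have ha2 : (512 : ℝ) ≤ a k := by
    have : (512 : ℕ) ≤ a k := by
      unfold a
      calc 512 = 2 ^ 9 := by norm_num
        _ ≤ 2 ^ (k + 9) := Nat.pow_le_pow_right (by norm_num) (by omega)
    exact_mod_cast this
  have h1 : (20 : ℝ) / (M k * N k * a k) ≤ 20 / (1 * N k * 512) := by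
    apply div_le_div_of_nonneg_left (by norm_num) (by positivity)
    have : (1 : ℝ) * N k ≤ M k * N k := mul_le_mul_of_nonneg_right hM hN.le
    nlinarith
  have h2 : (20 : ℝ) / (1 * N k * 512) = (20 / 512) * (1 / N k) := by
    field_simp
  have h3 := C7c_N k
  have h4 : (0 : ℝ) < (1 / 2) ^ k := by positivity
  rw [pow_succ]
  rw [h2] at h1
  nlinarith

theorem LB_all (t : ℕ → ℕ) (k : ℕ) :
    LB t k ((1 / 16) * (1 - (1 / 2) ^ k)) ((1 / 256) * (1 / 2) ^ k) := by
  induction k with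
  | zero =>
    refine C7c_mono (LB_zero t) ?_ ?_ <;> norm_num
  | succ k ih =>
    have hp : (0 : ℝ) < (1 / 2) ^ k := by positivity
    have hp1 : ((1 : ℝ) / 2) ^ k ≤ 1 := pow_le_one₀ (by norm_num) (by norm_num)
    have h1 := LB_succ (by nlinarith) (by positivity) (by nlinarith) ih
    refine C7c_mono h1 ?_ (C7c_MNa k)
    have h2 := C7c_N k
    have h3 := C7c_a k
    rw [h3, pow_succ]
    nlinarith

theorem sep_one (t : ℕ → ℕ) (k : ℕ) (hk : t k = M k) {j j' : ℕ} (hj : j < N (k + 1))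
    (hj' : j' < N (k + 1)) (hne : j ≠ j') {u v c : List ℕ} (hu : u <:+: Wd t (k + 1) j)
    (hv : v <:+: Wd t (k + 1) j') (hlu : u.length = h k * a k ^ N (k + 1))
    (hlv : v.length = h k * a k ^ N (k + 1)) (hcu : c.Sublist u) (hcv : c.Sublist v) :
    2 * c.length ≤ u.length := by
  have hW : ∀ i, Wd t (k + 1) i = cat t k (fun q => (q / a k ^ i) % N k) 0 (L k) := by
    intro i
    rw [Wd, cat, List.range_eq_range']
    refine List.flatMap_congr ?_
    intro q hq
    rw [List.mem_range'_1] at hq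
    have hlt : q < t k * (N k * Q k) := by
      have h1 := hq.2
      rw [hk]
      have : M k * (N k * Q k) = L k := by rw [L, A]; ring
      omega
    rw [pat, ex, if_pos hlt]
  rw [hW j] at hu
  rw [hW j'] at hv
  have hp : (0 : ℝ) < (1 / 2) ^ k := by positivity
  have hp1 : ((1 : ℝ) / 2) ^ k ≤ 1 := pow_le_one₀ (by norm_num) (by norm_num)
  -- the key inequality
  have hmain : (c.length : ℝ) ≤ ((1 / 16) * (1 - (1 / 2) ^ k) + 2 * ((1 / 256) * (1 / 2) ^ k) +
      1 / N k + 3 / a k) * (u.length + v.length) +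
      (2 * a k ^ (N (k + 1) - 2) + 3) * h k := by
    have ha1 : (1 : ℝ) ≤ a k := by exact_mod_cast a_pos k
    have hh : (0 : ℝ) ≤ h k := by positivity
    rcases Nat.lt_or_gt_of_ne hne with hlt | hlt
    · have h1 := lcs_runs (by nlinarith) (by positivity) (by nlinarith) (LB_all t k) hlt hu hv
        hcu hcv
      have h2 : (a k : ℝ) ^ j ≤ a k ^ (N (k + 1) - 2) := pow_le_pow_right₀ ha1 (by omega)
      have h3 : (2 * (a k : ℝ) ^ j + 3) * h k ≤ (2 * a k ^ (N (k + 1) - 2) + 3) * h k :=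
        mul_le_mul_of_nonneg_right (by linarith) hh
      linarith
    · have h1 := lcs_runs (by nlinarith) (by positivity) (by nlinarith) (LB_all t k) hlt hv hu
        hcv hcu
      have h2 : (a k : ℝ) ^ j' ≤ a k ^ (N (k + 1) - 2) := pow_le_pow_right₀ ha1 (by omega)
      have h3 : (2 * (a k : ℝ) ^ j' + 3) * h k ≤ (2 * a k ^ (N (k + 1) - 2) + 3) * h k :=
        mul_le_mul_of_nonneg_right (by linarith) hh
      have h4 : (v.length : ℝ) + u.length = u.length + v.length := add_comm _ _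
      rw [h4] at h1
      linarith
  have hN2 : 2 ≤ N (k + 1) := by
    unfold N
    calc 2 = 2 ^ 1 := by norm_num
      _ ≤ 2 ^ ((k + 1 + 3) ^ 2) :=
        Nat.pow_le_pow_right (by norm_num) (Nat.one_le_pow _ _ (by omega))
  have hcoef : ((1 / 16) * (1 - (1 / 2) ^ k) + 2 * ((1 / 256) * (1 / 2) ^ k) +
      1 / (N k : ℝ) + 3 / a k) ≤ 1 / 16 := by
    have h2 := C7c_N k
    have h3 := C7c_a k
    rw [h3]
    nlinarith
  have hu' : (u.length : ℝ) = h k * (a k : ℝ) ^ N (k + 1) := by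
    rw [hlu]; push_cast; ring
  have hv' : (v.length : ℝ) = h k * (a k : ℝ) ^ N (k + 1) := by
    rw [hlv]; push_cast; ring
  have ha512 : (512 : ℝ) ≤ a k := by
    have : (512 : ℕ) ≤ a k := by
      unfold a
      calc 512 = 2 ^ 9 := by norm_num
        _ ≤ 2 ^ (k + 9) := Nat.pow_le_pow_right (by norm_num) (by omega)
    exact_mod_cast this
  have hpe : (a k : ℝ) ^ N (k + 1) = a k ^ (N (k + 1) - 2) * a k ^ 2 := by
    rw [← pow_add]
    congr 1
    omega
  have hY1 : (1 : ℝ) ≤ (a k : ℝ) ^ (N (k + 1) - 2) := one_le_pow₀ (by linarith)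
  have hhk : (0 : ℝ) < h k := by exact_mod_cast h_pos k
  -- `(2 Y + 3) h ≤ 5 Y h ≤ (5 / 512 ^ 2) |u|`
  have hY2 : (2 * (a k : ℝ) ^ (N (k + 1) - 2) + 3) * h k ≤ (1 / 8) * u.length := by
    rw [hu', hpe]
    have h5 : (2 * (a k : ℝ) ^ (N (k + 1) - 2) + 3) ≤
        (1 / 8) * (a k ^ (N (k + 1) - 2) * a k ^ 2) := by
      have h6 : (40 : ℝ) ≤ a k ^ 2 := by nlinarith
      have h7 : (a k : ℝ) ^ (N (k + 1) - 2) * 40 ≤ a k ^ (N (k + 1) - 2) * a k ^ 2 :=
        mul_le_mul_of_nonneg_left h6 (by linarith)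
      linarith
    have := mul_le_mul_of_nonneg_right h5 hhk.le
    linarith
  have hS : (((1 / 16) * (1 - (1 / 2) ^ k) + 2 * ((1 / 256) * (1 / 2) ^ k) +
      1 / (N k : ℝ) + 3 / a k)) * ((u.length : ℝ) + v.length) ≤
      (1 / 16) * (u.length + v.length) :=
    mul_le_mul_of_nonneg_right hcoef (by positivity)
  have huv : (v.length : ℝ) = u.length := by rw [hu', hv']
  rw [huv] at hS hmain
  have hu0 : (0 : ℝ) ≤ u.length := by positivity
  have hfin : 2 * (c.length : ℝ) ≤ u.length := by linarith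
  exact_mod_cast hfin

end KakC
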